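import Pool.Agent.H49.CE.Targets

/-!
# MP_70000a_co, module A11: the final step, pyramid case
-/

set_option autoImplicit false

noncomputable section

namespace CE

open scoped Classical

private theorem h20_card_pairs (a : ℕ) :
    Fintype.card {p : Fin a × Fin a // p.1 < p.2} = a.choose 2 := by
  rw [Fintype.card_subtype, Finset.card_filter, Fintype.sum_prod_type_right]
  have h1 : ∀ y : Fin a, (∑ x : Fin a, if (x, y).1 < (x, y).2 then 1 else 0) = (y : ℕ) := by
    intro y
    rw [← Finset.card_filter]
    have : (Finset.univ.filter (fun x : Fin a => x < y)) = Finset.Iio y := by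
      ext x
      simp
    simp only [this, Fin.card_Iio]
  rw [Finset.sum_congr rfl (fun y _ => h1 y), Fin.sum_univ_eq_sum_range (fun i => i) a,
    Finset.sum_range_id, Nat.choose_two_right]

theorem FP : T_FP := by
  intro F _ _ V _ _ _ D φ a hD hP
  set q := Fintype.card F with hq
  have hq1 : 1 < q := Fintype.one_lt_card
  set n := q ^ (a ^ 2 + a.choose 2 + 1) with hn
  obtain ⟨Z0, G, p, x, hZ0, hZG, hfin, hp, hx, hxp, hind, hdist⟩ := hP
  set Z := Submodule.span F (Z0 : Set V) with hZ
  have : Fintype V := Fintype.ofFinite V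
  have : Module.Finite F V := Module.Finite.of_finite
  have hpD : ∀ j, p j ∈ D := fun j => (Finset.mem_filter.1 (hp j)).1
  have hxD : ∀ j i, x j i ∈ D := fun j i => (Finset.mem_filter.1 (hx j i)).1
  have hZD : ∀ z ∈ Z0, z ∈ D := fun z hz => (Finset.mem_filter.1 (hZ0 hz)).1
  -- classes of the lifts
  let Q := (↥G ⧸ Z.submoduleOf G)
  have : Finite Q := Quotient.finite _
  have : Fintype Q := Fintype.ofFinite Q
  have hQ : Fintype.card Q ≤ q ^ a := by
    have h1 : Module.finrank F Q + Module.finrank F (Z.submoduleOf G) = Module.finrank F G :=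
      Submodule.finrank_quotient_add_finrank _
    have h2 : Module.finrank F (Z.submoduleOf G) = Module.finrank F Z :=
      LinearEquiv.finrank_eq (Submodule.submoduleOfEquivOfLe hZG)
    rw [Module.card_eq_pow_finrank (K := F) (V := Q)]
    apply Nat.pow_le_pow_right hq1.le
    omega
  let cl : Fin n → (Fin a → Q) :=
    fun j i => (Z.submoduleOf G).mkQ ⟨x j i - p j, hxp j i⟩
  have hcl : ∀ j j', cl j = cl j' → ∀ i, (x j i - p j) - (x j' i - p j') ∈ Z := by
    intro j j' h i
    have h1 := congrFun h i
    have h2 := (Submodule.Quotient.eq (Z.submoduleOf G)).1 h1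
    exact h2
  obtain ⟨y, hy⟩ : ∃ y : Fin a → Q, q ^ (a.choose 2 + 1) ≤
      (Finset.univ.filter (fun j => cl j = y)).card := by
    apply Fintype.exists_le_card_fiber_of_mul_le_card
    rw [Fintype.card_fin, Fintype.card_fun, Fintype.card_fin, hn]
    calc Fintype.card Q ^ a * q ^ (a.choose 2 + 1) ≤ (q ^ a) ^ a * q ^ (a.choose 2 + 1) :=
          Nat.mul_le_mul_right _ (Nat.pow_le_pow_left hQ a)
      _ = q ^ (a ^ 2 + a.choose 2 + 1) := by
          rw [← pow_mul, ← pow_add]
          congr 1
          ring
  -- independent ones among the points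
  let J := {j : Fin n // cl j = y}
  have hJ : q ^ (a.choose 2 + 1) ≤ Fintype.card J := by
    rw [Fintype.card_subtype]
    exact hy
  let f : J → V ⧸ G := fun j => G.mkQ (p j.1)
  have hf : Function.Injective f := by
    intro j j' h
    have h1 : p j.1 - p j'.1 ∈ G := (Submodule.Quotient.eq G).1 h
    exact Subtype.ext (hdist _ _ h1)
  obtain ⟨κ, α, hα, hsp, hli⟩ := exists_linearIndependent' F f
  have : Finite κ := Finite.of_injective α hα
  have : Fintype κ := Fintype.ofFinite κ
  have : Finite (V ⧸ G) := Quotient.finite _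
  have hκ : a.choose 2 + 1 ≤ Fintype.card κ := by
    have h1 : Module.finrank F (Submodule.span F (Set.range f)) = Fintype.card κ := by
      rw [← hsp]
      exact finrank_span_eq_card hli
    have : Fintype (Submodule.span F (Set.range f)) := Fintype.ofFinite _
    have h2 : Fintype.card J ≤ Fintype.card (Submodule.span F (Set.range f)) := by
      apply Fintype.card_le_of_injective
        (fun j : J => (⟨f j, Submodule.subset_span ⟨j, rfl⟩⟩ : Submodule.span F (Set.range f)))
      intro j j' h
      exact hf (Subtype.ext_iff.1 h)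
    rw [Module.card_eq_pow_finrank (K := F) (V := Submodule.span F (Set.range f)), h1] at h2
    exact (Nat.pow_le_pow_iff_right hq1).1 (hJ.trans h2)
  let P := {p : Fin a × Fin a // p.1 < p.2}
  obtain ⟨ι⟩ : Nonempty (Option P ↪ κ) := by
    apply Function.Embedding.nonempty_of_card_le
    rw [Fintype.card_option, h20_card_pairs]
    exact hκ
  let g : Option P → Fin n := fun o => (α (ι o)).1
  have hg : ∀ o, cl (g o) = y := fun o => (α (ι o)).2
  have hgli : LinearIndependent F (fun o => G.mkQ (p (g o))) := hli.comp ι ι.injective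
  let s : Fin a → V := fun i => x (g none) i - p (g none)
  have hs : ∀ o i, (x (g o) i - p (g o)) - s i ∈ Z := fun o i =>
    hcl _ _ ((hg o).trans (hg none).symm) i
  have hsG : ∀ i, s i ∈ G := fun i => hxp _ i
  let u : Option P → V := fun o => match o with
    | none => p (g none)
    | some e => x (g (some e)) e.1.1
  have huD : ∀ o, u o ∈ D := by
    rintro (_ | e)
    · exact hpD _
    · exact hxD _ _
  have huG : ∀ o, G.mkQ (u o) = G.mkQ (p (g o)) := by
    rintro (_ | e)
    · rfl
    · exact (Submodule.Quotient.eq G).2 (hxp _ _)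
  set W := Submodule.span F (((Z0 ∪ Finset.univ.image u : Finset V)) : Set V) with hW
  have hZW : Z ≤ W := Submodule.span_mono (by
    intro z hz
    simp only [Finset.coe_union, Set.mem_union]
    exact Or.inl hz)
  have huW : ∀ o, u o ∈ W := fun o => Submodule.subset_span (by
    simp only [Finset.coe_union, Finset.coe_image, Finset.coe_univ, Set.image_univ, Set.mem_union]
    exact Or.inr ⟨o, rfl⟩)
  have hWsup : W = Z ⊔ Submodule.span F (Set.range u) := by
    rw [hW, Finset.coe_union, Submodule.span_union, Finset.coe_image, Finset.coe_univ,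
      Set.image_univ]
  refine ⟨Z0 ∪ Finset.univ.image u, Fin.cons 0 s, ?_, ?_, ?_⟩
  · intro z hz
    rcases Finset.mem_union.1 hz with hz | hz
    · exact hZD z hz
    · obtain ⟨o, _, rfl⟩ := Finset.mem_image.1 hz
      exact huD o
  · -- independence
    intro c hc0 hc
    have h1 : ∑ i, c i • (Fin.cons 0 s : Fin (a + 1) → V) i = ∑ i, c i.succ • s i := by
      rw [Fin.sum_univ_succ]
      simp
    rw [h1] at hc
    change ∑ i, c (Fin.succ i) • s i ∈ W at hc
    rw [hWsup, Submodule.mem_sup] at hc
    obtain ⟨z, hz, w, hw, hzw⟩ := hc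
    obtain ⟨β, hβ⟩ := (Submodule.mem_span_range_iff_exists_fun F).1 hw
    have h2 : ∑ o, β o • G.mkQ (p (g o)) = 0 := by
      have h3 : G.mkQ w = ∑ o, β o • G.mkQ (p (g o)) := by
        rw [← hβ, map_sum]
        exact Finset.sum_congr rfl (fun o _ => by rw [map_smul, huG])
      have h4 : G.mkQ w = 0 := by
        rw [Submodule.mkQ_apply, Submodule.Quotient.mk_eq_zero]
        have h5 : w = ∑ i, c (Fin.succ i) • s i - z := by
          rw [← hzw]
          abel
        rw [h5]
        exact G.sub_mem (G.sum_mem (fun i _ => G.smul_mem _ (hsG i))) (hZG hz)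
      rw [← h3, h4]
    have h3 : ∀ o, β o = 0 := Fintype.linearIndependent_iff.1 hgli β h2
    have h4 : w = 0 := by
      rw [← hβ]
      exact Finset.sum_eq_zero (fun o _ => by rw [h3 o, zero_smul])
    have h5 : ∑ i, c (Fin.succ i) • s i ∈ Z := by
      rw [← hzw, h4, add_zero]
      exact hz
    have h6 := hind (g none) (fun i => c i.succ) h5
    have h7 : ∀ i : Fin a, c i.succ = 0 := fun i => congrFun h6 i
    have h8 : c 0 = 0 := by
      rw [Fin.sum_univ_succ, Finset.sum_eq_zero (fun i _ => h7 i), add_zero] at hc0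
      exact hc0
    funext i
    refine Fin.cases h8 (fun i => h7 i) i
  · -- the edges
    have key : ∀ i j : Fin (a + 1), i < j → ∃ d ∈ D,
        (Fin.cons 0 s : Fin (a + 1) → V) j - (Fin.cons 0 s : Fin (a + 1) → V) i - d ∈ W := by
      intro i j hij
      obtain ⟨j', rfl⟩ : ∃ j' : Fin a, j'.succ = j := by
        apply Fin.exists_succ_eq.2
        intro h
        rw [h] at hij
        exact absurd hij (Fin.not_lt_zero i)
      revert hij
      refine Fin.cases ?_ (fun i' => ?_) i
      · intro _
        refine ⟨x (g none) j', hxD _ _, ?_⟩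
        have h1 : (Fin.cons 0 s : Fin (a + 1) → V) j'.succ - (Fin.cons 0 s : Fin (a + 1) → V) 0 -
            x (g none) j' = - u none := by
          simp only [Fin.cons_succ, Fin.cons_zero, s, u]
          abel
        rw [h1]
        exact W.neg_mem (huW none)
      · intro hij
        have hij' : i' < j' := Fin.succ_lt_succ_iff.1 hij
        let e : P := ⟨(i', j'), hij'⟩
        refine ⟨x (g (some e)) j', hxD _ _, ?_⟩
        have h1 : (Fin.cons 0 s : Fin (a + 1) → V) j'.succ -
            (Fin.cons 0 s : Fin (a + 1) → V) i'.succ - x (g (some e)) j' =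
            - u (some e) + ((x (g (some e)) i' - p (g (some e))) - s i') -
              ((x (g (some e)) j' - p (g (some e))) - s j') := by
          simp only [Fin.cons_succ, u, e]
          abel
        rw [h1]
        exact W.sub_mem (W.add_mem (W.neg_mem (huW (some e))) (hZW (hs _ _))) (hZW (hs _ _))
    intro i j hij
    rcases lt_or_gt_of_ne hij with h | h
    · obtain ⟨d, hd, h1⟩ := key i j h
      refine ⟨(-1 : F) • d, hD.2 (-1) (neg_ne_zero.2 one_ne_zero) d hd, ?_⟩
      have h2 : (Fin.cons 0 s : Fin (a + 1) → V) i - (Fin.cons 0 s : Fin (a + 1) → V) j -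
          (-1 : F) • d = -((Fin.cons 0 s : Fin (a + 1) → V) j -
            (Fin.cons 0 s : Fin (a + 1) → V) i - d) := by
        rw [neg_one_smul]
        abel
      rw [h2]
      exact W.neg_mem h1
    · obtain ⟨d, hd, h1⟩ := key j i h
      exact ⟨d, hd, h1⟩

end CE
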