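import Pool.Agent.H49.CE.Targets

/-!
# MP_70000a_co, module A12: from `KM` to the minor of the frozen statement
-/

set_option autoImplicit false

noncomputable section

namespace CE

open scoped Classical

theorem FM : T_FM := by
  intro m F _ _ n S hS0 hSp hKM
  obtain ⟨Z0, b, hZ0, hb, hd⟩ := hKM
  set Z := Submodule.span F (Z0 : Set (Fin n → F)) with hZdef
  -- representatives in `S`
  have hrep : ∀ i j : Fin m, i ≠ j → ∃ (s : Fin n → F) (c : F),
      s ∈ S ∧ c ≠ 0 ∧ b i - b j - c • s ∈ Z := by
    intro i j hij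
    obtain ⟨d, hd1, h⟩ := hd i j hij
    unfold cone at hd1
    simp only [Finset.mem_image, Finset.mem_product, Finset.mem_filter, Finset.mem_univ,
      true_and, Prod.exists] at hd1
    obtain ⟨c, s, ⟨hc, hs⟩, rfl⟩ := hd1
    exact ⟨s, c, hs, hc, h⟩
  choose! s c hs hc hm using hrep
  -- the contracted set
  set C : Set (Fin n → F) := {v | v ∈ S ∧ v ∈ Z} with hCdef
  have hspanC : Submodule.span F C = Z := by
    apply le_antisymm
    · rw [Submodule.span_le]
      intro v hv
      exact hv.2
    · rw [hZdef, Submodule.span_le]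
      intro z hz
      have hz1 := hZ0 hz
      unfold cone at hz1
      simp only [Finset.mem_image, Finset.mem_product, Finset.mem_filter, Finset.mem_univ,
        true_and, Prod.exists] at hz1
      obtain ⟨c', s', ⟨hc', hs'⟩, rfl⟩ := hz1
      have h1 : c' • s' ∈ Z := Submodule.subset_span hz
      have h2 : s' ∈ Z := by
        have := Z.smul_mem c'⁻¹ h1
        rwa [smul_smul, inv_mul_cancel₀ hc', one_smul] at this
      exact Submodule.smul_mem _ _ (Submodule.subset_span ⟨hs', h2⟩)
  let P := {p : Fin m × Fin m // p.1 < p.2}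
  let e : P → (Fin n → F) := fun a => s a.1.1 a.1.2
  let w : P → (Fin m → F) := fun a =>
    (Pi.single a.1.1 (1 : F) : Fin m → F) - (Pi.single a.1.2 (1 : F) : Fin m → F)
  have hne : ∀ a : P, a.1.1 ≠ a.1.2 := fun a => ne_of_lt a.2
  -- the map `T`
  let T : (Fin m → F) →ₗ[F] (Fin n → F) := 
    { toFun := fun x => ∑ i, x i • b i
      map_add' := by
        intro x y
        simp [add_smul, Finset.sum_add_distrib]
      map_smul' := by
        intro r x
        simp [Finset.smul_sum, smul_smul] }
  have hTw : ∀ a : P, T (w a) = b a.1.1 - b a.1.2 := by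
    intro a
    simp only [T, w, LinearMap.coe_mk, AddHom.coe_mk, Pi.sub_apply, sub_smul,
      Finset.sum_sub_distrib]
    congr 1
    · rw [Finset.sum_eq_single a.1.1]
      · simp
      · intro j _ hj
        simp [Pi.single_eq_of_ne hj]
      · intro h
        exact absurd (Finset.mem_univ _) h
    · rw [Finset.sum_eq_single a.1.2]
      · simp
      · intro j _ hj
        simp [Pi.single_eq_of_ne hj]
      · intro h
        exact absurd (Finset.mem_univ _) h
  let H : Submodule F (Fin m → F) :=
    { carrier := {x | ∑ i, x i = 0}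
      add_mem' := by
        intro x y hx hy
        simp only [Set.mem_ofPred_eq] at *
        simp [Finset.sum_add_distrib, hx, hy]
      zero_mem' := by simp
      smul_mem' := by
        intro r x hx
        simp only [Set.mem_ofPred_eq] at *
        simp [← Finset.mul_sum, hx] }
  have hwH : ∀ a : P, w a ∈ H := by
    intro a
    show ∑ i, w a i = 0
    simp [w, Finset.sum_sub_distrib]
  have hinj : ∀ x ∈ H, T x ∈ Z → x = 0 := fun x hx hT => hb x hx hT
  have hew : ∀ a : P, T (w a) - c a.1.1 a.1.2 • e a ∈ Z := by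
    intro a
    rw [hTw]
    exact hm _ _ (hne a)
  have he : ∀ a : P, Z.mkQ (e a) = (c a.1.1 a.1.2)⁻¹ • Z.mkQ (T (w a)) := by
    intro a
    have h1 : Z.mkQ (T (w a)) = c a.1.1 a.1.2 • Z.mkQ (e a) := by
      rw [← map_smul]
      exact (Submodule.Quotient.eq Z).2 (hew a)
    rw [h1, smul_smul, inv_mul_cancel₀ (hc _ _ (hne a)), one_smul]
  refine ⟨C, e, ?_, ?_, ?_, ?_⟩
  · intro v hv
    exact hv.1
  · -- injectivity
    intro a a' haa
    have h1 : Z.mkQ (T ((c a.1.1 a.1.2)⁻¹ • w a - (c a'.1.1 a'.1.2)⁻¹ • w a')) = 0 := by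
      rw [map_sub, map_sub, map_smul, map_smul, map_smul, map_smul, ← he, ← he, haa, sub_self]
    have h2 : T ((c a.1.1 a.1.2)⁻¹ • w a - (c a'.1.1 a'.1.2)⁻¹ • w a') ∈ Z := by
      rwa [Submodule.mkQ_apply, Submodule.Quotient.mk_eq_zero] at h1
    have h3 := hinj _ (H.sub_mem (H.smul_mem _ (hwH a)) (H.smul_mem _ (hwH a'))) h2
    have h4 : ∀ i, (c a.1.1 a.1.2)⁻¹ * w a i = (c a'.1.1 a'.1.2)⁻¹ * w a' i := by
      intro i
      have := congrFun h3 i
      simp only [Pi.sub_apply, Pi.smul_apply, smul_eq_mul, Pi.zero_apply] at this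
      exact sub_eq_zero.1 this
    have hwv : ∀ (a : P) (i : Fin m), w a i ≠ 0 ↔ (i = a.1.1 ∨ i = a.1.2) := by
      intro a i
      have := hne a
      constructor
      · intro h
        by_contra hcon
        push Not at hcon
        apply h
        simp [w, Pi.single_eq_of_ne hcon.1, Pi.single_eq_of_ne hcon.2]
      · rintro (h | h)
        · subst h
          simp [w, Pi.single_eq_of_ne this]
        · subst h
          simp [w, Pi.single_eq_of_ne this.symm]
    have h5 : ∀ i, (i = a.1.1 ∨ i = a.1.2) ↔ (i = a'.1.1 ∨ i = a'.1.2) := by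
      intro i
      rw [← hwv, ← hwv]
      have h6 := h4 i
      have h7 := inv_ne_zero (hc _ _ (hne a))
      have h8 := inv_ne_zero (hc _ _ (hne a'))
      constructor
      · intro h9 h10
        rw [h10, mul_zero] at h6
        rcases mul_eq_zero.1 h6 with h | h
        · exact h7 h
        · exact h9 h
      · intro h9 h10
        rw [h10, mul_zero] at h6
        rcases mul_eq_zero.1 h6.symm with h | h
        · exact h8 h
        · exact h9 h
    obtain ⟨⟨i, j⟩, hij⟩ := a
    obtain ⟨⟨i', j'⟩, hij'⟩ := a'
    simp only at hij hij' h5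
    have e1 := (h5 i).1 (Or.inl rfl)
    have e2 := (h5 j).1 (Or.inr rfl)
    have e3 := (h5 i').2 (Or.inl rfl)
    have e4 := (h5 j').2 (Or.inr rfl)
    have : i = i' ∧ j = j' := by
      rcases e1 with e1 | e1 <;> rcases e2 with e2 | e2
      · exact absurd (e1.trans e2.symm) (ne_of_lt hij)
      · exact ⟨e1, e2⟩
      · rw [e1, e2] at hij
        exact absurd hij (not_lt.2 hij'.le)
      · exact absurd (e1.trans e2.symm) (ne_of_lt hij)
    obtain ⟨rfl, rfl⟩ := this
    rfl
  · intro a
    exact hs _ _ (hne a)
  · -- ranks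
    intro A
    rw [hspanC]
    set X := Submodule.span F (C ∪ e '' (↑A : Set P)) with hX
    set R := Submodule.span F (w '' (↑A : Set P)) with hR
    have hZX : Z ≤ X := by
      rw [← hspanC]
      exact Submodule.span_mono Set.subset_union_left
    have hRH : R ≤ H := by
      rw [hR, Submodule.span_le]
      rintro _ ⟨a, _, rfl⟩
      exact hwH a
    -- the image of `X`
    have himg : X.map Z.mkQ = R.map (Z.mkQ ∘ₗ T) := by
      apply le_antisymm
      · rw [hX, Submodule.map_span, Submodule.span_le]
        rintro _ ⟨v, hv, rfl⟩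
        rcases hv with hv | ⟨a, ha, rfl⟩
        · have : Z.mkQ v = 0 := by
            rw [Submodule.mkQ_apply, Submodule.Quotient.mk_eq_zero]
            exact hv.2
          rw [this]
          exact Submodule.zero_mem _
        · rw [he]
          apply Submodule.smul_mem
          exact ⟨w a, Submodule.subset_span ⟨a, ha, rfl⟩, rfl⟩
      · rw [hR, Submodule.map_span, Submodule.span_le]
        rintro _ ⟨_, ⟨a, ha, rfl⟩, rfl⟩
        have h1 : (Z.mkQ ∘ₗ T) (w a) = c a.1.1 a.1.2 • Z.mkQ (e a) := by
          rw [he, smul_smul, mul_inv_cancel₀ (hc _ _ (hne a)), one_smul]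
          rfl
        rw [h1]
        apply Submodule.smul_mem
        exact ⟨e a, Submodule.subset_span (Or.inr ⟨a, ha, rfl⟩), rfl⟩
    have h1 : Module.finrank F X = Module.finrank F Z + Module.finrank F (X.map Z.mkQ) := by
      have h2 := LinearMap.finrank_range_add_finrank_ker (Z.mkQ.domRestrict X)
      have h3 : LinearMap.range (Z.mkQ.domRestrict X) = X.map Z.mkQ := by
        rw [LinearMap.range_domRestrict]
      have h4 : Module.finrank F (LinearMap.ker (Z.mkQ.domRestrict X)) = Module.finrank F Z := by
        have : LinearMap.ker (Z.mkQ.domRestrict X) = Z.submoduleOf X := by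
          ext v
          simp [Submodule.submoduleOf]
        rw [this]
        exact LinearEquiv.finrank_eq (Submodule.submoduleOfEquivOfLe hZX)
      rw [h3, h4] at h2
      omega
    have h2 : Module.finrank F (R.map (Z.mkQ ∘ₗ T)) = Module.finrank F R := by
      have h3 : LinearMap.range ((Z.mkQ ∘ₗ T).domRestrict R) = R.map (Z.mkQ ∘ₗ T) := by
        rw [LinearMap.range_domRestrict]
      rw [← h3]
      apply LinearMap.finrank_range_of_inj
      rw [← LinearMap.ker_eq_bot, LinearMap.ker_eq_bot']
      intro x hx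
      have h4 : (Z.mkQ ∘ₗ T) (x : Fin m → F) = 0 := hx
      rw [LinearMap.comp_apply, Submodule.mkQ_apply, Submodule.Quotient.mk_eq_zero] at h4
      exact Subtype.ext (hinj _ (hRH x.2) h4)
    rw [h1, himg, h2]

end CE
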