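import Pool.Agent.H49.CE.Targets

/-!
# MP_70000a_co, module A6: selection of a functional
-/

set_option autoImplicit false

noncomputable section

namespace CE

open scoped Classical

/-- the fibres of a surjective additive homomorphism between finite groups -/
private theorem h20_fibre {G H : Type} [AddCommGroup G] [AddCommGroup H] [Fintype G] [Fintype H]
    (f : G →+ H) (hf : Function.Surjective f) (h : H) :
    Fintype.card H * (Finset.univ.filter (fun g : G => f g = h)).card = Fintype.card G := by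
  have h1 : (Finset.univ : Finset G).card =
      ∑ b ∈ (Finset.univ : Finset H), (Finset.univ.filter (fun g : G => f g = b)).card :=
    Finset.card_eq_sum_card_fiberwise (fun _ _ => Finset.mem_univ _)
  have h2 : ∀ b : H, (Finset.univ.filter (fun g : G => f g = b)).card =
      (Finset.univ.filter (fun g : G => f g = h)).card := by
    intro b
    obtain ⟨g0, hg0⟩ := hf (h - b)
    apply Finset.card_bij (fun g _ => g + g0)
    · intro g hg
      simp only [Finset.mem_filter, Finset.mem_univ, true_and] at hg ⊢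
      rw [map_add, hg, hg0]
      abel
    · intro g _ g' _ hgg
      exact add_right_cancel hgg
    · intro g hg
      simp only [Finset.mem_filter, Finset.mem_univ, true_and] at hg
      refine ⟨g - g0, ?_, by abel⟩
      simp only [Finset.mem_filter, Finset.mem_univ, true_and]
      rw [map_sub, hg, hg0]
      abel
  rw [← Finset.card_univ (α := G), h1, Finset.sum_congr rfl (fun b _ => h2 b), Finset.sum_const,
    smul_eq_mul, Finset.card_univ]

private theorem h20_pair {F : Type} [Field F] {V : Type} [AddCommGroup V] [Module F V]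
    {x y : V} (h : LinearIndependent F ![x, y]) (a b : F) :
    ∃ φ : V →ₗ[F] F, φ x = a ∧ φ y = b := by
  obtain ⟨g, hg⟩ := LinearMap.exists_leftInverse_of_injective
    (Fintype.linearCombination F ![x, y])
    (by
      rw [LinearMap.ker_eq_bot']
      intro c hc
      exact funext (Fintype.linearIndependent_iff.1 h c (by simpa [Fintype.linearCombination_apply] using hc)))
  have h0 : g x = Pi.single 0 1 := by
    have := LinearMap.congr_fun hg (Pi.single 0 1)
    simpa using this
  have h1 : g y = Pi.single 1 1 := by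
    have := LinearMap.congr_fun hg (Pi.single 1 1)
    simpa using this
  refine ⟨a • (LinearMap.proj 0 ∘ₗ g) + b • (LinearMap.proj 1 ∘ₗ g), ?_, ?_⟩
  · simp [h0]
  · simp [h1]

theorem FUN : T_FUN := by
  intro F _ _ V _ _ _ C1 D th hD h0 hne hEE
  set q := Fintype.card F with hq
  have hq0 : 0 < q := Fintype.card_pos
  have hfin : Finite (V →ₗ[F] F) :=
    Finite.of_injective (fun φ : V →ₗ[F] F => (φ : V → F)) DFunLike.coe_injective
  let _ : Fintype (V →ₗ[F] F) := Fintype.ofFinite _
  set M := Fintype.card (V →ₗ[F] F) with hM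
  -- one vector
  have hA : ∀ x : V, x ≠ 0 →
      q * (Finset.univ.filter (fun φ : V →ₗ[F] F => φ x = 1)).card = M := by
    intro x hx
    have hsurj : Function.Surjective
        ((LinearMap.applyₗ (R := F) x : (V →ₗ[F] F) →ₗ[F] F).toAddMonoidHom) := by
      intro a
      obtain ⟨φ, hφ⟩ := Module.Projective.exists_dual_eq_one F hx
      refine ⟨a • φ, ?_⟩
      show a * φ x = a
      rw [hφ, mul_one]
    exact h20_fibre _ hsurj 1
  -- two vectors
  have hB : ∀ x y : V, LinearIndependent F ![x, y] →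
      q ^ 2 * (Finset.univ.filter (fun φ : V →ₗ[F] F => φ x = 1 ∧ φ y = 1)).card = M := by
    intro x y hxy
    let f : (V →ₗ[F] F) →ₗ[F] (F × F) :=
      (LinearMap.applyₗ (R := F) x : (V →ₗ[F] F) →ₗ[F] F).prod (LinearMap.applyₗ (R := F) y)
    have hsurj : Function.Surjective f.toAddMonoidHom := by
      rintro ⟨a, b⟩
      obtain ⟨φ, hφ1, hφ2⟩ := h20_pair hxy a b
      exact ⟨φ, Prod.ext hφ1 hφ2⟩
    have h1 := h20_fibre _ hsurj (1, 1)
    rw [Fintype.card_prod, ← hq, ← pow_two] at h1
    rw [hM, ← h1]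
    congr 2
    ext φ
    simp only [Finset.mem_filter, Finset.mem_univ, true_and]
    constructor
    · rintro ⟨h2, h3⟩
      exact Prod.ext h2 h3
    · intro h2
      exact ⟨congrArg Prod.fst h2, congrArg Prod.snd h2⟩
  by_contra hcon
  push Not at hcon
  -- sizes
  let Cf : (V →ₗ[F] F) → Finset V := fun φ => C1.filter (fun x => φ x = 1)
  let Ef : (V →ₗ[F] F) → ℕ := fun φ => EE (Cf φ) (D.filter (fun x => φ x = 0))
  have hle : ∀ φ, Ef φ ≤ th * (Cf φ).card := by
    intro φ
    by_cases h : (Cf φ).Nonempty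
    · exact (hcon φ h).le
    · rw [Finset.not_nonempty_iff_eq_empty] at h
      simp [Ef, h, EE]
  have hlt : ∑ φ, Ef φ < ∑ φ, th * (Cf φ).card := by
    obtain ⟨x, hx⟩ := hne
    have hx0 : x ≠ 0 := fun h => h0 (h ▸ hx)
    obtain ⟨φ, hφ⟩ := Module.Projective.exists_dual_eq_one F hx0
    apply Finset.sum_lt_sum (fun φ _ => hle φ)
    exact ⟨φ, Finset.mem_univ _, hcon φ ⟨x, Finset.mem_filter.2 ⟨hx, hφ⟩⟩⟩
  have hC : q * ∑ φ, (Cf φ).card = C1.card * M := by
    have h1 : ∑ φ, (Cf φ).card =
        ∑ x ∈ C1, (Finset.univ.filter (fun φ : V →ₗ[F] F => φ x = 1)).card := by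
      simp only [Cf, Finset.card_filter]
      exact Finset.sum_comm
    rw [h1, Finset.mul_sum, Finset.sum_congr rfl (fun x hx => hA x (fun h => h0 (h ▸ hx))),
      Finset.sum_const, smul_eq_mul]
  set S := (C1 ×ˢ C1).filter (fun p => p.1 - p.2 ∈ D) with hS
  set Sp := S.filter (fun p => ¬ LinearIndependent F ![p.1, p.2]) with hSp
  set Si := S.filter (fun p => LinearIndependent F ![p.1, p.2]) with hSi
  have hcards : Si.card + Sp.card = S.card := Finset.card_filter_add_card_filter_not _
  have hSpc : Sp.card ≤ C1.card * q := by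
    have h1 : Sp ⊆ (C1 ×ˢ (Finset.univ : Finset F)).image (fun p => (p.1, p.2 • p.1)) := by
      intro p hp
      rw [hSp, Finset.mem_filter] at hp
      obtain ⟨hp1, hp2⟩ := hp
      rw [hS, Finset.mem_filter, Finset.mem_product] at hp1
      have hx0 : p.1 ≠ 0 := fun h => h0 (h ▸ hp1.1.1)
      rw [LinearIndependent.pair_iff' hx0] at hp2
      push Not at hp2
      obtain ⟨a, ha⟩ := hp2
      exact Finset.mem_image.2 ⟨(p.1, a), Finset.mem_product.2 ⟨hp1.1.1, Finset.mem_univ _⟩,
        Prod.ext rfl ha⟩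
    calc Sp.card ≤ _ := Finset.card_le_card h1
      _ ≤ (C1 ×ˢ (Finset.univ : Finset F)).card := Finset.card_image_le
      _ = C1.card * q := by rw [Finset.card_product, Finset.card_univ]
  have hE : Si.card * M ≤ q ^ 2 * ∑ φ, Ef φ := by
    have h1 : ∑ p ∈ Si, (Finset.univ.filter (fun φ : V →ₗ[F] F => φ p.1 = 1 ∧ φ p.2 = 1)).card =
        ∑ φ : V →ₗ[F] F, (Si.filter (fun p => φ p.1 = 1 ∧ φ p.2 = 1)).card := by
      simp only [Finset.card_filter]
      exact Finset.sum_comm
    have h2 : ∀ φ : V →ₗ[F] F, (Si.filter (fun p => φ p.1 = 1 ∧ φ p.2 = 1)).card ≤ Ef φ := by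
      intro φ
      apply Finset.card_le_card
      intro p hp
      simp only [hSi, hS, Cf, Finset.mem_filter, Finset.mem_product] at hp ⊢
      obtain ⟨⟨⟨⟨ha, hb⟩, hc⟩, _⟩, hd, he⟩ := hp
      exact ⟨⟨⟨ha, hd⟩, hb, he⟩, hc, by rw [map_sub, hd, he, sub_self]⟩
    have h3 : Si.card * M = q ^ 2 *
        ∑ p ∈ Si, (Finset.univ.filter (fun φ : V →ₗ[F] F => φ p.1 = 1 ∧ φ p.2 = 1)).card := by
      rw [Finset.mul_sum, Finset.sum_congr rfl
        (fun p hp => hB p.1 p.2 (Finset.mem_filter.1 hp).2), Finset.sum_const, smul_eq_mul]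
    rw [h3, h1]
    exact Nat.mul_le_mul_left _ (Finset.sum_le_sum (fun φ _ => h2 φ))
  have hSc : (q * th + q) * C1.card ≤ S.card := hEE
  have hSi2 : q * th * C1.card ≤ Si.card := by nlinarith
  -- contradiction
  have h1 : q ^ 2 * ∑ φ, Ef φ < q ^ 2 * ∑ φ, th * (Cf φ).card :=
    (Nat.mul_lt_mul_left (pow_pos hq0 2)).2 hlt
  have h2 : q ^ 2 * ∑ φ, th * (Cf φ).card = q * th * C1.card * M := by
    rw [← Finset.mul_sum]
    calc q ^ 2 * (th * ∑ φ, (Cf φ).card) = q * th * (q * ∑ φ, (Cf φ).card) := by ring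
      _ = q * th * C1.card * M := by rw [hC]; ring
  have h3 : q * th * C1.card * M ≤ Si.card * M := Nat.mul_le_mul_right _ hSi2
  omega

end CE
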